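import Mathlib

/-! Integral relations between permutation characters: the lemma of Banaschewski and the theorem of
Solomon on hyperelementary subgroups. -/

set_option autoImplicit false
set_option linter.unusedSectionVars false

namespace Pool.Agent.Q5.SO

open MulAction
open scoped Classical Pointwise

section
variable {G : Type} [Group G] [Finite G]

/-- the number of fixed points of `g` on `G ⧸ B` -/
noncomputable def fq (B : Subgroup G) (g : G) : ℤ := (Nat.card {x : G ⧸ B // g • x = x} : ℤ)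

/-- the number of fixed points of `g` on `X` -/
noncomputable def fp (X : Type) [MulAction G X] (g : G) : ℤ := (Nat.card {x : X // g • x = x} : ℤ)

/-- the decomposition in orbits -/
theorem fp_orbits (X : Type) [MulAction G X] [Finite X] [Fintype (Quotient (orbitRel G X))]
    (g : G) : fp X g = ∑ ω : Quotient (orbitRel G X), fq (stabilizer G ω.out) g := by
  let f : (Σ ω : Quotient (orbitRel G X), G ⧸ stabilizer G ω.out) → X :=
    fun p => ofQuotientStabilizer G p.1.out p.2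
  have hmk : ∀ p, (Quotient.mk (orbitRel G X) (f p)) = p.1 := by
    rintro ⟨ω, y⟩
    obtain ⟨a, rfl⟩ := QuotientGroup.mk_surjective y
    have h1 : f ⟨ω, (a : G ⧸ stabilizer G ω.out)⟩ = a • ω.out := rfl
    rw [h1]
    have h2 : Quotient.mk (orbitRel G X) (a • ω.out) = Quotient.mk (orbitRel G X) ω.out := by
      apply Quotient.sound
      exact ⟨a, rfl⟩
    rw [h2, Quotient.out_eq]
  have hinj : Function.Injective f := by
    rintro ⟨ω, y⟩ ⟨ω', y'⟩ h
    have h1 : ω = ω' := (hmk ⟨ω, y⟩).symm.trans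
      ((congrArg (Quotient.mk (orbitRel G X)) h).trans (hmk ⟨ω', y'⟩))
    subst h1
    have h2 : y = y' := injective_ofQuotientStabilizer G ω.out h
    rw [h2]
  have hsurj : Function.Surjective f := by
    intro x
    have h1 : (orbitRel G X).r x (Quotient.mk (orbitRel G X) x).out :=
      Quotient.exact (Quotient.out_eq (Quotient.mk (orbitRel G X) x)).symm
    obtain ⟨a, ha⟩ := h1
    exact ⟨⟨Quotient.mk (orbitRel G X) x, QuotientGroup.mk a⟩, ha⟩
  have heq : ∀ p, g • f p = f p ↔ g • p.2 = p.2 := by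
    rintro ⟨ω, y⟩
    have h1 : g • f ⟨ω, y⟩ = f ⟨ω, g • y⟩ := (ofQuotientStabilizer_smul G ω.out g y).symm
    rw [h1]
    constructor
    · intro h
      have h2 := hinj h
      simpa using h2
    · intro h
      change g • y = y at h
      rw [h]
  have e : {x : X // g • x = x} ≃ Σ ω : Quotient (orbitRel G X),
      {y : G ⧸ stabilizer G ω.out // g • y = y} := by
    refine Equiv.trans (Equiv.subtypeEquiv (Equiv.ofBijective f ⟨hinj, hsurj⟩).symm (q := fun p =>
      g • p.2 = p.2) ?_) ?_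
    · intro x
      rw [← heq]
      have : f ((Equiv.ofBijective f ⟨hinj, hsurj⟩).symm x) = x :=
        (Equiv.ofBijective f ⟨hinj, hsurj⟩).apply_symm_apply x
      rw [this]
    · exact ⟨fun p => ⟨p.1.1, p.1.2, p.2⟩, fun p => ⟨⟨p.1, p.2.1⟩, p.2.2⟩, fun p => rfl,
        fun p => rfl⟩
  unfold fp fq
  rw [Nat.card_congr e, Nat.card_sigma]
  push_cast
  rfl

/-- the products -/
theorem fq_mul (B B' : Subgroup G) (g : G) : fq B g * fq B' g = fp ((G ⧸ B) × (G ⧸ B')) g := by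
  unfold fq fp
  rw [← Nat.cast_mul, ← Nat.card_prod]
  congr 1
  refine Nat.card_congr ⟨fun p => ⟨(p.1.1, p.2.1), ?_⟩, fun p => ⟨⟨p.1.1, ?_⟩, ⟨p.1.2, ?_⟩⟩,
    fun p => rfl, fun p => rfl⟩
  · change (g • p.1.1, g • p.2.1) = _
    rw [p.1.2, p.2.2]
  · exact congrArg Prod.fst p.2
  · exact congrArg Prod.snd p.2

/-- `φ` is a combination of the functions `fq B` with `𝓗 B` -/
def Cmb (𝓗 : Subgroup G → Prop) [Fintype (Subgroup G)] (φ : G → ℤ) : Prop :=
  ∃ n : Subgroup G → ℤ, (∀ B, n B ≠ 0 → 𝓗 B) ∧ ∀ g, φ g = ∑ B, n B * fq B g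

variable {𝓗 : Subgroup G → Prop} [Fintype (Subgroup G)]

theorem Cmb.zero : Cmb 𝓗 (fun _ => 0) :=
  ⟨fun _ => 0, fun _ h => absurd rfl h, fun g => by simp⟩

theorem Cmb.add {φ ψ : G → ℤ} (h1 : Cmb 𝓗 φ) (h2 : Cmb 𝓗 ψ) :
    Cmb 𝓗 (fun g => φ g + ψ g) := by
  obtain ⟨n, hn, hn'⟩ := h1
  obtain ⟨k, hk, hk'⟩ := h2
  refine ⟨fun B => n B + k B, fun B hB => ?_, fun g => ?_⟩
  · by_cases h : n B = 0
    · refine hk B fun h' => hB ?_
      change n B + k B = 0
      rw [h, h', add_zero]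
    · exact hn B h
  · change φ g + ψ g = _
    rw [hn', hk', ← Finset.sum_add_distrib]
    exact Finset.sum_congr rfl fun B _ => by ring

theorem Cmb.smul {φ : G → ℤ} (h1 : Cmb 𝓗 φ) (c : ℤ) : Cmb 𝓗 (fun g => c * φ g) := by
  obtain ⟨n, hn, hn'⟩ := h1
  refine ⟨fun B => c * n B, fun B hB => hn B fun h => hB ?_, fun g => ?_⟩
  · change c * n B = 0
    rw [h, mul_zero]
  · change c * φ g = _
    rw [hn', Finset.mul_sum]
    exact Finset.sum_congr rfl fun B _ => by ring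

theorem Cmb.sum {ι : Type} (s : Finset ι) {φ : ι → G → ℤ} (h : ∀ i ∈ s, Cmb 𝓗 (φ i)) :
    Cmb 𝓗 (fun g => ∑ i ∈ s, φ i g) := by
  induction s using Finset.induction_on with
  | empty => simpa using Cmb.zero
  | insert a s ha ih =>
    simp only [Finset.sum_insert ha]
    exact (h a (Finset.mem_insert_self a s)).add
      (ih fun i hi => h i (Finset.mem_insert_of_mem hi))

theorem Cmb.of {B : Subgroup G} (hB : 𝓗 B) : Cmb 𝓗 (fq B) := by
  refine ⟨fun C => if C = B then 1 else 0, fun C hC => ?_, fun g => ?_⟩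
  · by_cases h : C = B
    · rw [h]; exact hB
    · exact absurd (if_neg h) hC
  · simp

theorem stab_mem (hconj : ∀ B a, 𝓗 B → 𝓗 (B.map (MulAut.conj a).toMonoidHom)) {B : Subgroup G}
    (hB : 𝓗 B) (x : G ⧸ B) : 𝓗 (stabilizer G x) := by
  obtain ⟨a, rfl⟩ := QuotientGroup.mk_surjective x
  have h1 : ((a : G) : G ⧸ B) = a • ((1 : G) : G ⧸ B) := by
    change _ = ((a * 1 : G) : G ⧸ B)
    rw [mul_one]
  rw [h1, stabilizer_smul_eq_stabilizer_map_conj, stabilizer_quotient]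
  exact hconj B a hB

/-- the ring -/
theorem Cmb.mul (hconj : ∀ B a, 𝓗 B → 𝓗 (B.map (MulAut.conj a).toMonoidHom))
    (hinf : ∀ B C, 𝓗 B → 𝓗 C → 𝓗 (B ⊓ C)) {φ ψ : G → ℤ} (h1 : Cmb 𝓗 φ) (h2 : Cmb 𝓗 ψ) :
    Cmb 𝓗 (fun g => φ g * ψ g) := by
  obtain ⟨n, hn, hn'⟩ := h1
  obtain ⟨k, hk, hk'⟩ := h2
  have h3 : ∀ B C, 𝓗 B → 𝓗 C → Cmb 𝓗 (fun g => fq B g * fq C g) := by
    intro B C hB hC
    have : Fintype (Quotient (orbitRel G ((G ⧸ B) × (G ⧸ C)))) := Fintype.ofFinite _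
    have h4 : (fun g => fq B g * fq C g) = fun g =>
        ∑ ω : Quotient (orbitRel G ((G ⧸ B) × (G ⧸ C))), fq (stabilizer G ω.out) g := by
      funext g
      rw [fq_mul, fp_orbits]
    rw [h4]
    refine Cmb.sum _ fun ω _ => Cmb.of ?_
    have h5 : stabilizer G ω.out = stabilizer G ω.out.1 ⊓ stabilizer G ω.out.2 := by
      ext g
      rw [Subgroup.mem_inf, mem_stabilizer_iff, mem_stabilizer_iff, mem_stabilizer_iff]
      exact Prod.ext_iff
    rw [h5]
    exact hinf _ _ (stab_mem hconj hB _) (stab_mem hconj hC _)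
  have h6 : (fun g => φ g * ψ g) = fun g => ∑ B : Subgroup G, ∑ C : Subgroup G,
      (n B * k C) * (fq B g * fq C g) := by
    funext g
    rw [hn', hk', Finset.sum_mul_sum]
    refine Finset.sum_congr rfl fun B _ => Finset.sum_congr rfl fun C _ => ?_
    ring
  rw [h6]
  refine Cmb.sum _ fun B _ => Cmb.sum _ fun C _ => ?_
  by_cases hB : n B = 0
  · simpa [hB] using Cmb.zero
  by_cases hC : k C = 0
  · simpa [hC] using Cmb.zero
  exact (h3 B C (hn B hB) (hk C hC)).smul _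

/-- **Banaschewski's lemma.** -/
theorem banaschewski (hconj : ∀ B a, 𝓗 B → 𝓗 (B.map (MulAut.conj a).toMonoidHom))
    (hinf : ∀ B C, 𝓗 B → 𝓗 C → 𝓗 (B ⊓ C))
    (h : ∀ (g : G) (p : ℕ), p.Prime → ∃ B, 𝓗 B ∧ ¬ (p : ℤ) ∣ fq B g) :
    Cmb 𝓗 (fun _ : G => 1) := by
  have key : ∀ g : G, ∃ φ : G → ℤ, Cmb 𝓗 φ ∧ φ g = 1 := by
    intro g
    let A : AddSubgroup ℤ :=
      { carrier := {t | ∃ φ : G → ℤ, Cmb 𝓗 φ ∧ φ g = t}
        zero_mem' := ⟨_, Cmb.zero, rfl⟩
        add_mem' := by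
          rintro _ _ ⟨φ, h1, rfl⟩ ⟨ψ, h2, rfl⟩
          exact ⟨_, h1.add h2, rfl⟩
        neg_mem' := by
          rintro _ ⟨φ, h1, rfl⟩
          exact ⟨_, h1.smul (-1), by ring⟩ }
    obtain ⟨d, hd⟩ := Int.subgroup_cyclic A
    rw [← AddSubgroup.zmultiples_eq_closure] at hd
    have h1 : d.natAbs = 1 := by
      by_contra hne
      obtain ⟨p, hp, hpd⟩ := Nat.exists_prime_and_dvd hne
      obtain ⟨B, hB, hnd⟩ := h g p hp
      apply hnd
      have h2 : fq B g ∈ A := ⟨_, Cmb.of hB, rfl⟩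
      rw [hd, Int.mem_zmultiples_iff] at h2
      exact (Int.natCast_dvd.2 hpd).trans h2
    have h3 : (1 : ℤ) ∈ A := by
      rw [hd, Int.mem_zmultiples_iff]
      exact Int.natAbs_dvd.1 (by rw [h1]; exact one_dvd _)
    exact h3
  choose φ hφ hφ1 using key
  have : Fintype G := Fintype.ofFinite G
  have h4 : ∀ s : Finset G, ∃ ψ : G → ℤ, Cmb 𝓗 ψ ∧ ∀ x, ∏ g ∈ s, (1 - φ g x) = 1 - ψ x := by
    intro s
    induction s using Finset.induction_on with
    | empty => exact ⟨_, Cmb.zero, fun x => by simp⟩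
    | insert a s ha ih =>
      obtain ⟨ψ, h1, h2⟩ := ih
      refine ⟨fun x => φ a x + (ψ x + (-1) * (φ a x * ψ x)), (hφ a).add (h1.add
        (((hφ a).mul hconj hinf h1).smul (-1))), fun x => ?_⟩
      rw [Finset.prod_insert ha, h2]
      ring
  obtain ⟨ψ, h5, h6⟩ := h4 Finset.univ
  have h7 : ψ = fun _ => 1 := by
    funext x
    have h8 := h6 x
    rw [Finset.prod_eq_zero (Finset.mem_univ x) (by rw [hφ1, sub_self])] at h8
    linarith
  rw [← h7]
  exact h5

end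

end Pool.Agent.Q5.SO
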