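import Pool.Agent.H26.Lib.R_pool_sql_team_seeded_3997aac3.Q5.SO.Group

/-! Hyperelementary subgroups: Solomon's induction theorem. -/

set_option autoImplicit false
set_option linter.unusedSectionVars false

namespace Pool.Agent.Q5.SO

open MulAction
open scoped Classical Pointwise

/-- `p`-hyperelementary groups -/
def Hyper (G : Type) [Group G] : Prop :=
  ∃ p : ℕ, p.Prime ∧ ∃ C : Subgroup G, C.Normal ∧ IsCyclic C ∧ (Nat.card C).Coprime p ∧
    ∀ g : G, ∃ k : ℕ, g ^ p ^ k ∈ C

section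
variable {G : Type} [Group G]

/-- `p`-hyperelementary subgroups -/
def HypAt (p : ℕ) (H : Subgroup G) : Prop :=
  ∃ C : Subgroup G, C ≤ H ∧ (∀ h ∈ H, ∀ c ∈ C, h * c * h⁻¹ ∈ C) ∧ IsCyclic C ∧
    (Nat.card C).Coprime p ∧ ∀ h ∈ H, ∃ k : ℕ, h ^ p ^ k ∈ C

theorem HypAt.le [Finite G] {p : ℕ} {H H' : Subgroup G} (h : HypAt p H) (hle : H' ≤ H) : HypAt p H' := by
  obtain ⟨C, h1, h2, h3, h4, h5⟩ := h
  refine ⟨C ⊓ H', inf_le_right, fun h hh c hc => ⟨h2 h (hle hh) c hc.1,
    H'.mul_mem (H'.mul_mem hh hc.2) (H'.inv_mem hh)⟩, ?_, ?_, fun h hh => ?_⟩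
  · exact isCyclic_of_injective (Subgroup.inclusion (inf_le_left : C ⊓ H' ≤ C))
      (Subgroup.inclusion_injective _)
  · exact Nat.Coprime.coprime_dvd_left (Subgroup.card_dvd_of_le inf_le_left) h4
  · obtain ⟨k, hk⟩ := h5 h (hle hh)
    exact ⟨k, hk, H'.pow_mem hh _⟩

theorem HypAt.map {G' : Type} [Group G'] {p : ℕ} {H : Subgroup G} (h : HypAt p H) (f : G ≃* G') :
    HypAt p (H.map f.toMonoidHom) := by
  obtain ⟨C, h1, h2, h3, h4, h5⟩ := h
  refine ⟨C.map f.toMonoidHom, Subgroup.map_mono h1, ?_, ?_, ?_, ?_⟩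
  · rintro _ ⟨h, hh, rfl⟩ _ ⟨c, hc, rfl⟩
    exact ⟨h * c * h⁻¹, h2 h hh c hc, by simp⟩
  · exact (C.equivMapOfInjective f.toMonoidHom f.injective).isCyclic.1 h3
  · rw [← Nat.card_congr (C.equivMapOfInjective f.toMonoidHom f.injective).toEquiv]
    exact h4
  · rintro _ ⟨h, hh, rfl⟩
    obtain ⟨k, hk⟩ := h5 h hh
    exact ⟨k, h ^ p ^ k, hk, map_pow _ _ _⟩

theorem HypAt.hyper {p : ℕ} (hp : p.Prime) {H : Subgroup G} (h : HypAt p H) : Hyper H := by
  obtain ⟨C, h1, h2, h3, h4, h5⟩ := h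
  refine ⟨p, hp, C.subgroupOf H, ⟨fun c hc g => ?_⟩, ?_, ?_, fun g => ?_⟩
  · exact h2 g.1 g.2 c.1 hc
  · exact (Subgroup.subgroupOfEquivOfLe h1).isCyclic.2 h3
  · rw [Nat.card_congr (Subgroup.subgroupOfEquivOfLe h1).toEquiv]
    exact h4
  · obtain ⟨k, hk⟩ := h5 g.1 g.2
    exact ⟨k, hk⟩

variable [Finite G]

theorem card_fq (B : Subgroup G) (g : G) :
    (Nat.card B : ℤ) * fq B g = (Nat.card {x : G // x⁻¹ * g * x ∈ B} : ℤ) := by
  unfold fq
  rw [← Nat.cast_mul]
  congr 1
  have e : {x : G // x⁻¹ * g * x ∈ B} ≃ {x : G ⧸ B // g • x = x} × B := by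
    have h1 : ∀ x : G, x⁻¹ * g * x ∈ B ↔ g • (x : G ⧸ B) = x := by
      intro x
      change _ ↔ ((g * x : G) : G ⧸ B) = x
      rw [eq_comm, QuotientGroup.eq, mul_assoc]
    refine Equiv.trans (Equiv.subtypeEquiv (Subgroup.groupEquivQuotientProdSubgroup (s := B))
      (q := fun y => g • y.1 = y.1) ?_) ?_
    · intro x
      rw [h1]
      rfl
    · exact ⟨fun y => (⟨y.1.1, y.2⟩, y.1.2), fun y => ⟨(y.1.1, y.2), y.1.2⟩, fun y => rfl,
        fun y => rfl⟩
  rw [Nat.card_congr e, Nat.card_prod, mul_comm]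

/-- **Solomon's argument.** -/
theorem exists_hyp (g : G) (p : ℕ) (hp : p.Prime) :
    ∃ H : Subgroup G, HypAt p H ∧ ¬ (p : ℤ) ∣ fq H g := by
  have hpf : Fact p.Prime := ⟨hp⟩
  set q : ℕ := p ^ (Nat.card G).factorization p with hq
  set c : G := g ^ q with hc
  set C : Subgroup G := Subgroup.zpowers c with hC
  -- the order of `c`
  have hcard : Nat.card G = q * (Nat.card G / q) := (Nat.mul_div_cancel' (Nat.ordProj_dvd _ _)).symm
  have hcop : (Nat.card G / q).Coprime p := by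
    have := Nat.coprime_ordCompl hp (Nat.card_pos (α := G)).ne'
    exact this.symm
  have hord : orderOf c ∣ Nat.card G / q := by
    rw [orderOf_dvd_iff_pow_eq_one, hc, ← pow_mul, ← hcard]
    exact pow_card_eq_one'
  have hcp : (orderOf c).Coprime p := Nat.Coprime.coprime_dvd_left hord hcop
  have hCc : Nat.card C = orderOf c := Nat.card_zpowers c
  -- the normalizer
  set N : Subgroup G := Subgroup.normalizer (C : Set G) with hN
  have hCN : C ≤ N := Subgroup.le_normalizer
  have hgN : g ∈ N := by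
    rw [hN, Subgroup.mem_normalizer_iff]
    intro h
    have hcg : ∀ x ∈ C, g * x * g⁻¹ = x := by
      rintro _ ⟨k, rfl⟩
      have h1 : Commute g (c ^ k) := by
        rw [hc]
        exact ((Commute.refl g).pow_right q).zpow_right k
      rw [h1.eq, mul_inv_cancel_right]
    constructor
    · intro h1
      rw [hcg h h1]
      exact h1
    · intro h1
      obtain ⟨k, hk⟩ := h1
      have h2 : h = c ^ k := by
        have h3 : h = g⁻¹ * (g * h * g⁻¹) * g := by group
        have h4 : Commute g⁻¹ (c ^ k) := by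
          rw [hc]
          exact (((Commute.refl g).inv_left).pow_right q).zpow_right k
        rw [h3, ← hk]
        change g⁻¹ * c ^ k * g = c ^ k
        rw [h4.eq, inv_mul_cancel_right]
      rw [h2]
      exact ⟨k, rfl⟩
  have hnorm : (C.subgroupOf N).Normal := Subgroup.normal_in_normalizer
  set π : N →* N ⧸ C.subgroupOf N := QuotientGroup.mk' (C.subgroupOf N) with hπ
  have hgbar : (π ⟨g, hgN⟩) ^ q = 1 := by
    rw [← map_pow, hπ, QuotientGroup.mk'_apply, QuotientGroup.eq_one_iff]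
    exact Subgroup.mem_zpowers c
  have hPg : IsPGroup p (Subgroup.zpowers (π ⟨g, hgN⟩)) := by
    apply IsPGroup.of_card_dvd_pow
    · rw [Nat.card_zpowers]
      exact orderOf_dvd_of_pow_eq_one hgbar
  obtain ⟨S, hS⟩ := hPg.exists_le_sylow
  set H' : Subgroup N := (S : Subgroup (N ⧸ C.subgroupOf N)).comap π with hH'
  set H : Subgroup G := H'.map N.subtype with hH
  have hmemH : ∀ x : G, x ∈ H ↔ ∃ hx : x ∈ N, π ⟨x, hx⟩ ∈ S := by
    intro x
    constructor
    · rintro ⟨y, hy, rfl⟩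
      exact ⟨y.2, hy⟩
    · rintro ⟨hx, h1⟩
      exact ⟨⟨x, hx⟩, h1, rfl⟩
  have hCH : C ≤ H := by
    intro x hx
    refine (hmemH x).2 ⟨hCN hx, ?_⟩
    have h1 : π ⟨x, hCN hx⟩ = 1 := by
      rw [hπ, QuotientGroup.mk'_apply, QuotientGroup.eq_one_iff]
      exact hx
    rw [h1]
    exact one_mem _
  have hHpow : ∀ h ∈ H, ∃ k : ℕ, h ^ p ^ k ∈ C := by
    intro h hh
    obtain ⟨hx, h1⟩ := (hmemH h).1 hh
    obtain ⟨k, hk⟩ := S.isPGroup' ⟨_, h1⟩
    refine ⟨k, ?_⟩
    have h2 : (π ⟨h, hx⟩) ^ p ^ k = 1 := congrArg Subtype.val hk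
    rw [← map_pow, hπ, QuotientGroup.mk'_apply, QuotientGroup.eq_one_iff] at h2
    exact h2
  refine ⟨H, ⟨C, hCH, ?_, inferInstance, hCc ▸ hcp, hHpow⟩, ?_⟩
  · intro h hh x hx
    obtain ⟨hhN, -⟩ := (hmemH h).1 hh
    exact (Subgroup.mem_normalizer_iff.1 hhN x).1 hx
  -- the fixed points of `c`
  have hset : ∀ x : G, x⁻¹ * c * x ∈ H ↔ x ∈ N := by
    intro x
    constructor
    · intro hx
      obtain ⟨k, hk⟩ := hHpow _ hx
      set c' := x⁻¹ * c * x with hc'
      have hoc : orderOf c' = orderOf c := by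
        have h1 : c' = MulAut.conj x⁻¹ c := by
          rw [MulAut.conj_apply, inv_inv]
        rw [h1]
        exact MulEquiv.orderOf_eq (MulAut.conj x⁻¹) c
      have h2 : c' ∈ C := by
        have h3 : (orderOf c').Coprime (p ^ k) := by
          rw [hoc]
          exact hcp.pow_right k
        have h4 : c' ∈ Subgroup.zpowers (c' ^ p ^ k) := by
          obtain ⟨m, hm⟩ := exists_pow_eq_self_of_coprime (x := c') h3.symm
          have h5 : (c' ^ p ^ k) ^ m ∈ Subgroup.zpowers (c' ^ p ^ k) :=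
            Subgroup.pow_mem _ (Subgroup.mem_zpowers _) m
          rwa [hm] at h5
        have h6 : Subgroup.zpowers (c' ^ p ^ k) ≤ C := (Subgroup.zpowers_le (G := G)).2 hk
        exact h6 h4
      have h5 : Subgroup.zpowers c' = C := by
        apply Subgroup.eq_of_le_of_card_ge (Subgroup.zpowers_le.2 h2)
        rw [Nat.card_zpowers c', hoc, hCc]
      have h6 : x⁻¹ ∈ N := by
        rw [hN, Subgroup.mem_normalizer_iff_map_conj_eq]
        have h7 : C.map (MulAut.conj x⁻¹ : G ≃* G).toMonoidHom = Subgroup.zpowers c' := by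
          rw [hC, MonoidHom.map_zpowers]
          congr 1
          change x⁻¹ * c * x⁻¹⁻¹ = c'
          rw [inv_inv]
        exact h7.trans h5
      simpa using N.inv_mem h6
    · intro hx
      have h1 := (Subgroup.mem_normalizer_iff.1 (N.inv_mem hx) c).1 (Subgroup.mem_zpowers c)
      rw [inv_inv] at h1
      exact hCH h1
  have hfc : (Nat.card H : ℤ) * fq H c = (Nat.card N : ℤ) := by
    rw [card_fq]
    congr 1
    exact Nat.card_congr (Equiv.subtypeEquivRight hset)
  have hcardN : (Nat.card N : ℤ) = (Nat.card H : ℤ) * (S : Subgroup (N ⧸ C.subgroupOf N)).index := by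
    have h1 := H'.card_mul_index
    have h2 : H'.index = (S : Subgroup (N ⧸ C.subgroupOf N)).index :=
      Subgroup.index_comap_of_surjective _ (QuotientGroup.mk'_surjective _)
    have h3 : Nat.card H = Nat.card H' :=
      (Nat.card_congr (H'.equivMapOfInjective N.subtype N.subtype_injective).toEquiv).symm
    rw [← h1, h2, h3]
    push_cast
    rfl
  have hidx : fq H c = (S : Subgroup (N ⧸ C.subgroupOf N)).index := by
    rw [hcardN] at hfc
    refine mul_left_cancel₀ ?_ hfc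
    have : 0 < Nat.card H := Nat.card_pos
    exact_mod_cast this.ne'
  -- the fixed points of `g`
  let Y : Type := {x : G ⧸ H // c • x = x}
  have : Fintype Y := Fintype.ofFinite Y
  let f : Function.End Y := fun y => ⟨g • y.1, by
    rw [← mul_smul]
    have h1 : c * g = g * c := by
      rw [hc]
      exact (pow_mul_comm' g q)
    rw [h1, mul_smul, y.2]⟩
  have hfpow : ∀ (k : ℕ) (y : Y), ((f ^ k) y).1 = g ^ k • y.1 := by
    intro k
    induction k with
    | zero =>
      intro y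
      rw [pow_zero, pow_zero, one_smul]
      rfl
    | succ k ih =>
      intro y
      rw [pow_succ, pow_succ, mul_smul]
      exact ih (f y)
  have hf : f ^ p ^ (Nat.card G).factorization p = 1 := by
    funext y
    apply Subtype.ext
    rw [hfpow]
    exact y.2
  have hmod := Equiv.Perm.card_fixedPoints_modEq hf
  have hY : (Fintype.card Y : ℤ) = fq H c := by
    unfold fq
    rw [← Nat.card_eq_fintype_card]
  have hF : (Fintype.card f.fixedPoints : ℤ) = fq H g := by
    unfold fq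
    rw [← Nat.card_eq_fintype_card]
    congr 1
    refine Nat.card_congr ⟨fun y => ⟨y.1.1, congrArg Subtype.val y.2⟩,
      fun x => ⟨⟨x.1, ?_⟩, ?_⟩, fun y => rfl, fun x => rfl⟩
    · have h1 : ∀ k : ℕ, g ^ k • x.1 = x.1 := by
        intro k
        induction k with
        | zero => rw [pow_zero, one_smul]
        | succ k ih => rw [pow_succ, mul_smul, x.2, ih]
      exact h1 q
    · apply Subtype.ext
      exact x.2
  have hmod' : (fq H c) ≡ (fq H g) [ZMOD p] := by
    rw [← hY, ← hF]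
    exact Int.natCast_modEq_iff.2 hmod
  intro hdvd
  have h1 : (p : ℤ) ∣ fq H c := (Int.ModEq.dvd_iff hmod').2 hdvd
  rw [hidx, Int.natCast_dvd_natCast] at h1
  exact S.not_dvd_index h1

end

section
variable {G : Type} [Group G] [Finite G] [Fintype (Subgroup G)]

/-- **Solomon's theorem.** -/
theorem solomon : ∃ n : Subgroup G → ℤ, (∀ B, n B ≠ 0 → Hyper B) ∧
    ∀ g : G, 1 = ∑ B, n B * fq B g := by
  -- the subgroups that are hyperelementary
  have h := banaschewski (𝓗 := fun B : Subgroup G => ∃ p : ℕ, p.Prime ∧ HypAt p B)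
    (fun B a => fun ⟨p, hp, h⟩ => ⟨p, hp, h.map (MulAut.conj a)⟩)
    (fun B C => fun ⟨p, hp, h⟩ _ => ⟨p, hp, h.le inf_le_left⟩)
    (fun g p hp => by
      obtain ⟨H, h1, h2⟩ := exists_hyp g p hp
      exact ⟨H, ⟨p, hp, h1⟩, h2⟩)
  obtain ⟨n, hn, hn'⟩ := h
  refine ⟨n, fun B hB => ?_, hn'⟩
  obtain ⟨p, hp, h⟩ := hn B hB
  exact h.hyper hp

end

end Pool.Agent.Q5.SO
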